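import Mathlib
import Pool.Agent.N546.PG.Fin
import Pool.Agent.N665.PN.Conv

/-!
# The Hasse principle for 100% of the generalised Châtelet varieties over `ℙⁿ`, `n ≥ 2`, and of their
# fibre products (helper546)

Let `n ≥ 2`, let `a_j`, `b_j`, `j < r`, be nonzero integers such that no product of some of the `a_j` is a
square, and let `I_j` be sets of indices `i < m`. Let `F_i`, `i < m`, be forms of degree `d_i ≥ 1` in
`x_0, …, x_n` with integral coefficients, where `∑_{i ∈ I_j} d_i` is even for all `j`. We consider the
variety `X_F` fibred over `ℙⁿ` in products of `r` conics, given by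

  `y_j² - a_j z_j² = b_j ∏_{i ∈ I_j} F_i(x) ≠ 0`, `j < r`.

Its smooth proper models are geometrically rationally connected. If some `I_j` has more than one element,
the quaternion algebras `(a_j, F_i)` (for forms of even degree, or products of two of odd degree) are
unramified on them, and in general not constant, so that there may be Brauer-Manin obstructions to the
Hasse principle.

We order the families `F` by the maximum `H` of the absolute values of all the coefficients. If at least
one `X_F` has points over the real numbers and over all `ℚ_p`, then a positive proportion of them has,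
and for 100% of these there is a rational point.

Proof. We find a line in `ℙⁿ` over which `X_F` has points everywhere locally, and use the corresponding
theorem for `ℙ¹` (helper718, `MP_d4938b_nt.RandomChateletProducts`). There is a polynomial which vanishes
for all families `F` for which at some point of `ℙⁿ` the gradients of the forms vanishing there are
linearly dependent. It is rarely small, in the real and in the `p`-adic metric, so for all but `ε` of
the families the local points can be chosen, by compactness, in finitely many stable positions at the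
real place and at the primes up to `P`. For every residue class of families we choose a line through an
integral point near the local points; a line for which the restriction of one of the forms vanishes
identically modulo a prime `p > P` is met by a proportion `O(1 / P)` of the families of the class. The
restrictions to the fixed lines are families of binary forms, almost all of which satisfy the Hasse
principle. The method for the diagonal conic bundles is the same
(`Pool/Agent/Results/MP_03ef3d_ag/DiagonalConicBundles.lean`).
-/

set_option autoImplicit false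

namespace Pool.Agent.Results.MP_d4938b_nt.ChateletProductsOverPn

open Filter Topology MvPolynomial

/-- The fixed data of the system of equations `y_j² - a_j z_j² = b_j ∏_{i ∈ I_j} F_i(x)`, `j < r`: the
sets `I_j` of indices `i < m` and the integers `a_j` and `b_j`. -/
structure Data (r m : ℕ) where
  /-- the sets of indices -/
  I : Fin r → Finset (Fin m)
  /-- the coefficients on the left -/
  a : Fin r → ℤ
  /-- the constant factors on the right -/
  b : Fin r → ℤ

variable {r m n : ℕ}

/-- No product of some of the `a_j` (of at least one of them) is a square, the `b_j` are not zero, and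
the right hand sides have even degree, if the form `F_i` has the degree `d i`. -/
structure Data.Admissible (E : Data r m) (d : Fin m → ℕ) : Prop where
  independent : ∀ T : Finset (Fin r), T.Nonempty → ¬ IsSquare (∏ j ∈ T, E.a j)
  nonzero : ∀ j, E.b j ≠ 0
  even : ∀ j, Even (∑ i ∈ E.I j, d i)

/-- The families of forms `F i` of degree `d i` in `n + 1` variables whose coefficients are integers
of absolute value at most `H`. -/
def Families (n : ℕ) (d : Fin m → ℕ) (H : ℕ) : Set (Fin m → MvPolynomial (Fin (n + 1)) ℤ) :=
  {F | ∀ i, (F i).IsHomogeneous (d i) ∧ ∀ s, |(F i).coeff s| ≤ (H : ℤ)}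

/-- There is a point over the field `K` over some base point at which no form `F i` vanishes. -/
def HasPoint (E : Data r m) (F : Fin m → MvPolynomial (Fin (n + 1)) ℤ) (K : Type) [Field K] : Prop :=
  ∃ x : Fin (n + 1) → K, (∀ i, aeval x (F i) ≠ 0) ∧
    ∀ j, ∃ y z : K, y ^ 2 - (E.a j : K) * z ^ 2 = (E.b j : K) * ∏ i ∈ E.I j, aeval x (F i)

/-- There are points over the real numbers and over all the `p`-adic fields. -/
def LocallySoluble (E : Data r m) (F : Fin m → MvPolynomial (Fin (n + 1)) ℤ) : Prop :=
  HasPoint E F ℝ ∧ ∀ (p : ℕ) [Fact p.Prime], HasPoint E F ℚ_[p]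

/-- The same data in the notation of the library. -/
def toDat (E : Data r m) : Pool.Agent.N718.GC.Dat r m := ⟨E.I, E.a, E.b⟩

lemma toDat_ok {E : Data r m} {e : Fin m → ℕ} (h : E.Admissible (fun i => e i + 1)) :
    (toDat E).Ok e := ⟨h.independent, h.nonzero, h.even⟩

open Pool.Agent.N546.PN Pool.Agent.N665.PN in
theorem hasPoint_iff (E : Data r m) {e : Fin m → ℕ} (hE : (toDat E).Ok e)
    {F : Fin m → MvPolynomial (Fin (n + 1)) ℤ} (hF : ∀ i, (F i).IsHomogeneous (e i + 1)) (K : Type)
    [Field K] : HasPoint E F K ↔ ∃ x, Pool.Agent.N546.PG.Pt (Pool.Agent.N546.PG.typG (toDat E) hE)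
      (ic (fun k => (cof (F k) : Mon n (e k + 1) → ℤ)) K) x := by
  unfold HasPoint Pool.Agent.N546.PG.Pt
  refine exists_congr fun x => ?_
  have h : ∀ i, aeval x (F i) =
      val (ic (fun k => (cof (F k) : Mon n (e k + 1) → ℤ)) K i) x :=
    fun i => conv_val n _ _ (hF i) K x
  simp only [h]
  exact Iff.rfl

/-- **The Hasse principle for 100% of the generalised Châtelet varieties over projective spaces and of
their fibre products.** -/
theorem result (n : ℕ) (hn : 2 ≤ n) (r m : ℕ) (hm : 1 ≤ m) (d : Fin m → ℕ) (hd : ∀ i, 1 ≤ d i)
    (E : Data r m) (hE : E.Admissible d)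
    (hne : ∃ (H : ℕ) (F : Fin m → MvPolynomial (Fin (n + 1)) ℤ), F ∈ Families n d H ∧
      LocallySoluble E F) :
    (∃ c₀ : ℝ, 0 < c₀ ∧ ∀ᶠ H : ℕ in atTop, c₀ * ((Families n d H).ncard : ℝ) ≤
      (({F | F ∈ Families n d H ∧ LocallySoluble E F} : Set _).ncard : ℝ)) ∧
    Tendsto (fun H : ℕ =>
      (({F | F ∈ Families n d H ∧ HasPoint E F ℚ} : Set _).ncard : ℝ) /
      (({F | F ∈ Families n d H ∧ LocallySoluble E F} : Set _).ncard : ℝ)) atTop (𝓝 1) := by
  classical
  obtain ⟨e, rfl⟩ : ∃ e : Fin m → ℕ, d = fun k => e k + 1 :=
    ⟨fun k => d k - 1, funext fun k => (Nat.sub_add_cancel (hd k)).symm⟩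
  have hE' := toDat_ok hE
  have hne' : ∃ c : (k : Fin m) → Pool.Agent.N546.PN.Mon n (e k + 1) → ℤ,
      Pool.Agent.N546.PG.LocN (Pool.Agent.N546.PG.typG (toDat E) hE') c := by
    obtain ⟨H, F, hF, h1, h2⟩ := hne
    have hF' : ∀ i, (F i).IsHomogeneous (e i + 1) := fun i => (hF i).1
    exact ⟨fun k => Pool.Agent.N665.PN.cof (F k), (hasPoint_iff E hE' hF' ℝ).1 h1,
      fun p hp => (hasPoint_iff E hE' hF' ℚ_[p]).1 (h2 p)⟩
  obtain ⟨⟨c₀, hc₀, h1⟩, h2⟩ := Pool.Agent.N546.PG.fin_count hm hn (toDat E) hE' hne'
  have e1 : ∀ H : ℕ, ({F | F ∈ Families n (fun k : Fin m => e k + 1) H ∧ LocallySoluble E F} :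
      Set (Fin m → MvPolynomial (Fin (n + 1)) ℤ)).ncard =
      ((Pool.Agent.N546.PN.bx n e H).filter (fun c =>
        Pool.Agent.N546.PG.LocN (Pool.Agent.N546.PG.typG (toDat E) hE') c)).card := by
    intro H
    refine Eq.trans ?_ ((Pool.Agent.N665.PN.conv_card n (Fin m) e H (fun c =>
      Pool.Agent.N546.PG.LocN (Pool.Agent.N546.PG.typG (toDat E) hE') c)).trans (by congr!))
    congr 1
    ext F
    simp only [Set.mem_ofPred_eq, Families]
    refine and_congr_right fun hF => ?_
    have hF' : ∀ k, (F k).IsHomogeneous (e k + 1) := fun k => (hF k).1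
    unfold LocallySoluble Pool.Agent.N546.PG.LocN
    rw [hasPoint_iff E hE' hF' ℝ]
    refine and_congr Iff.rfl (forall_congr' fun p => forall_congr' fun _ => ?_)
    exact hasPoint_iff E hE' hF' ℚ_[p]
  have e2 : ∀ H : ℕ, ({F | F ∈ Families n (fun k : Fin m => e k + 1) H ∧ HasPoint E F ℚ} :
      Set (Fin m → MvPolynomial (Fin (n + 1)) ℤ)).ncard =
      ((Pool.Agent.N546.PN.bx n e H).filter (fun c =>
        Pool.Agent.N546.PG.GlobN (Pool.Agent.N546.PG.typG (toDat E) hE') c)).card := by
    intro H
    refine Eq.trans ?_ ((Pool.Agent.N665.PN.conv_card n (Fin m) e H (fun c =>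
      Pool.Agent.N546.PG.GlobN (Pool.Agent.N546.PG.typG (toDat E) hE') c)).trans (by congr!))
    congr 1
    ext F
    simp only [Set.mem_ofPred_eq, Families]
    refine and_congr_right fun hF => ?_
    have hF' : ∀ k, (F k).IsHomogeneous (e k + 1) := fun k => (hF k).1
    rw [hasPoint_iff E hE' hF' ℚ]
    exact Iff.rfl
  have e3 : ∀ H : ℕ, (Families n (fun k : Fin m => e k + 1) H).ncard =
      (Pool.Agent.N546.PN.bx n e H).card := by
    intro H
    have h3 := Pool.Agent.N665.PN.conv_card n (Fin m) e H (fun _ => True)
    rw [Finset.filter_true] at h3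
    rw [← h3]
    congr 1
    ext F
    simp [Families]
  constructor
  · refine ⟨c₀, hc₀, ?_⟩
    filter_upwards [h1] with H h3
    rw [e1 H, e3 H]
    convert h3
  · refine h2.congr fun H => ?_
    rw [e1 H, e2 H]

end Pool.Agent.Results.MP_d4938b_nt.ChateletProductsOverPn
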