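import Pool.Agent.N220.CF.M
import Pool.Agent.Results.MP_d4938b_nt.NormFormsCoprimeDegrees

/-!
# Rational points on the varieties `N_{Kᵢ/ℚ}(zᵢ) = f(t) + k` for the denominators `k` of the convergents of almost every number

Let `f` be an integral polynomial of degree `d ≥ 2` in any number of variables, and let `K₁, …, K_r` be abelian number fields of
degrees prime to `d` and with class numbers prime to their degrees, such that for every `i` all norms are nonnegative or `-1` is
a norm (and the latter for all `i` if `d` is even). There is ONE null set of real numbers, for all `f` and all `K₁, …, K_r` in a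
given cyclotomic field, such that for every `ξ` outside of it and for all but finitely many of the convergents `p / q` of the
continued fraction of `ξ` both varieties `V_k : N_{Kᵢ/ℚ}(zᵢ) = f(t) + k ≠ 0`, `k = ± q`, have rational points, which moreover
approximate the `t`-coordinates of all their `p`-adic points at the primes of any given finite set. The same holds for all
simultaneous approximations: for almost all `α` in `R^n` and all `c` for all but finitely many `q` with `|q α_j - p_j| ≤
c q^(-1/n)` for some integers `p_j`.
-/

set_option autoImplicit false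

namespace Pool.Agent.Results.MP_d4938b_nt.ConvergentDenominators

open Finset Filter MvPolynomial NumberField Module MeasureTheory
open Pool.Agent.N220.CF (Approx finitely_family)
open Pool.Agent.Results.MP_d4938b_nt.NormFormsCoprimeDegrees (Approximation)

/-- The conditions on the fields and the polynomial: class numbers and degrees are coprime, all norms are nonnegative or `-1` is
a norm, the degree of `f` is at least `2` and prime to the degrees of the fields, and it is odd or `-1` is a norm for all `i`. -/
structure Conditions {L : Type} [Field L] [NumberField L] {r s : ℕ} (K : Fin r → IntermediateField ℚ L)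
    (f : MvPolynomial (Fin s) ℤ) : Prop where
  classNumber : ∀ i, (classNumber (K i)).Coprime (finrank ℚ (K i))
  norms : ∀ i, (∃ x : K i, Algebra.norm ℚ x = -1) ∨ ∀ x : K i, 0 ≤ Algebra.norm ℚ x
  degree : 2 ≤ f.totalDegree
  coprime : ∀ i, f.totalDegree.Coprime (finrank ℚ (K i))
  parity : Odd f.totalDegree ∨ ∀ i, ∃ x : K i, Algebra.norm ℚ x = -1

theorem countable_mv (s : ℕ) : Countable (MvPolynomial (Fin s) ℤ) := by
  rw [← Cardinal.mk_le_aleph0_iff]
  refine (MvPolynomial.cardinalMk_le_max).trans ?_
  simp

/-- **Rational points at the convergents of almost every number.** Here `L` is the `m`-th cyclotomic field, and the `Kᵢ` are any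
of its subfields. -/
theorem result (m : ℕ) [NeZero m] (L : Type) [Field L] [NumberField L] [IsCyclotomicExtension {m} ℚ L] (r s : ℕ) :
    (∀ n : ℕ, 1 ≤ n → ∀ᵐ α : Fin n → ℝ, ∀ (K : Fin r → IntermediateField ℚ L) (f : MvPolynomial (Fin s) ℤ), Conditions K f →
      ∀ (T : Finset Nat.Primes) (N : ℕ) (c : ℝ),
        {q : ℕ | Approx c (1 / n) α q ∧ ¬ (Approximation K f T N q ∧ Approximation K f T N (-(q : ℤ)))}.Finite) ∧
    ∀ᵐ ξ : ℝ, ∀ (K : Fin r → IntermediateField ℚ L) (f : MvPolynomial (Fin s) ℤ), Conditions K f →
      ∀ (T : Finset Nat.Primes) (N : ℕ), ∀ᶠ n : ℕ in atTop,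
        Approximation K f T N (ξ.convergent n).den ∧ Approximation K f T N (-((ξ.convergent n).den : ℤ)) := by
  haveI : Finite (IntermediateField ℚ L) :=
    Field.finite_intermediateField_of_exists_primitive_element ℚ L (Field.exists_primitive_element ℚ L)
  haveI := countable_mv s
  have h := finitely_family (ι := {x : (Fin r → IntermediateField ℚ L) × MvPolynomial (Fin s) ℤ × Finset Nat.Primes × ℕ //
    Conditions x.1 x.2.1}) (fun x n => Approximation x.1.1 x.1.2.1 x.1.2.2.1 x.1.2.2.2 n) (U := 2) le_rfl (by
      classical
      rintro ⟨⟨K, f, T, N⟩, hc⟩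
      obtain ⟨X₀, hX₀⟩ := Pool.Agent.Results.MP_d4938b_nt.NormFormsCoprimeDegrees.result m K hc.classNumber hc.norms f hc.degree
        hc.coprime hc.parity T N 2
      refine ⟨X₀, fun X hX => le_trans (le_of_eq ?_) (hX₀ X hX)⟩
      congr!)
  refine ⟨fun n hn => ?_, ?_⟩
  · filter_upwards [h.1 n hn] with α hα K f hc T N c
    exact hα ⟨⟨K, f, T, N⟩, hc⟩ c
  · filter_upwards [h.2] with ξ hξ K f hc T N
    exact hξ ⟨⟨K, f, T, N⟩, hc⟩

end Pool.Agent.Results.MP_d4938b_nt.ConvergentDenominators
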