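import Pool.Agent.N918.MS.Cnt
import Pool.Agent.Results.MP_d4938b_nt.NormFormsCoprimeDegrees

/-!
# Rational points on the varieties `N_{Kᵢ/ℚ}(zᵢ) = f(t) + k` along random and metric sequences

Let `L` be a cyclotomic field, let `f` be an integral polynomial of degree at least two in any number of variables and let the
`Kᵢ` be subfields of `L`, `i < r`, with the `Conditions`: class numbers and degrees are coprime, all norms are nonnegative or
`-1` is a norm, the degree of `f` is prime to the degrees of the `Kᵢ`, and it is odd or `-1` is a norm for all `i`. Say that the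
integer `k` is good for `K`, `f`, a finite set `T` of primes and a level `N`, if
`V_k : N_{Kᵢ/ℚ}(zᵢ) = f(t) + k ≠ 0` has the property `Approximation` of the starting theorem `NormFormsCoprimeDegrees`: all
`p`-adic points, `p` in `T`, of level `N` are approximated by a rational point in the coordinates `t`; in particular `V_k` has
rational points. For ALL these data at once, outside of ONE event (set) of probability (measure) zero,

* for random integers `X_n`, of ANY dependence, with `P (X_n = k) ≤ C / (|k| + 1)`, almost surely all but finitely many `X_n`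
  are good, if `|X_n| ≥ exp (n ^ δ)` outside of events with a convergent sum of probabilities; all but `M / (log M) ^ U` of
  the `X_n`, `n < M`, are good for all `U`, if `∑_{n < M} P (|X_n| < M ^ δ) ≤ C M ^ (1 - δ)`;
* for all linear forms `a_n` in `d` variables with norms at least `exp (n ^ δ)`, for almost all vectors `α`, all but finitely
  many `⌊a_n (α)⌋` are good; the same for `⌊h_n (x)⌋`, for almost all `x` in an interval on which `|h_n'| ≥ c |h_n|` and
  `|h_n| ≥ exp (n ^ δ)`; the same for `⌊ξ x ^ n⌋`, for all `ξ ≠ 0` and almost all `x > 1`;
* for ANY sequence of real numbers `a_n` with mutual distances at least `δ > 0`, in any order, and almost all real `α` all but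
  `M / (log M) ^ U` of the `⌊a_n α⌋`, `n < M`, are good, for all `U`.
-/

set_option autoImplicit false

namespace Pool.Agent.Results.MP_d4938b_nt.MetricSequences

open Finset Filter MvPolynomial NumberField Module MeasureTheory
open Pool.Agent.N918.MS (AlmostAlways RandomAndMetric randomAndMetric)
open Pool.Agent.Results.MP_d4938b_nt.NormFormsCoprimeDegrees (Approximation)

/-- the data: subfields `Kᵢ` of `L`, a polynomial `f`, a finite set `T` of primes and a level `N` -/
structure Data (L : Type) [Field L] [NumberField L] where
  r : ℕ
  s : ℕ
  K : Fin r → IntermediateField ℚ L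
  f : MvPolynomial (Fin s) ℤ
  T : Finset Nat.Primes
  N : ℕ

variable {L : Type} [Field L] [NumberField L]

/-- The conditions on the fields and the polynomial: class numbers and degrees are coprime, all norms are nonnegative or `-1` is
a norm, the degree of `f` is at least `2` and prime to the degrees of the fields, and it is odd or `-1` is a norm for all `i`. -/
structure Data.Conditions (x : Data L) : Prop where
  classNumber : ∀ i, (classNumber (x.K i)).Coprime (finrank ℚ (x.K i))
  norms : ∀ i, (∃ y : x.K i, Algebra.norm ℚ y = -1) ∨ ∀ y : x.K i, 0 ≤ Algebra.norm ℚ y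
  degree : 2 ≤ x.f.totalDegree
  coprime : ∀ i, x.f.totalDegree.Coprime (finrank ℚ (x.K i))
  parity : Odd x.f.totalDegree ∨ ∀ i, ∃ y : x.K i, Algebra.norm ℚ y = -1

instance : Countable (Data L) := by
  have := Pool.Agent.N918.MS.finite_if L
  have := Pool.Agent.N918.MS.countable_mv
  have h : Function.Surjective (fun y : (Σ r : ℕ, Σ s : ℕ, (Fin r → IntermediateField ℚ L) × MvPolynomial (Fin s) ℤ ×
      Finset Nat.Primes × ℕ) => (⟨y.1, y.2.1, y.2.2.1, y.2.2.2.1, y.2.2.2.2.1, y.2.2.2.2.2⟩ : Data L)) :=
    fun x => ⟨⟨x.r, x.s, x.K, x.f, x.T, x.N⟩, rfl⟩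
  exact h.countable

/-- **Rational points along random and metric sequences.** Here `L` is the `m`-th cyclotomic field. -/
theorem result (m : ℕ) [NeZero m] (L : Type) [Field L] [NumberField L] [IsCyclotomicExtension {m} ℚ L] :
    RandomAndMetric (fun (x : {x : Data L // x.Conditions}) k => Approximation x.1.K x.1.f x.1.T x.1.N k) := by
  classical
  refine randomAndMetric _ ?_
  rintro ⟨x, hc⟩
  refine AlmostAlways.of_card fun U => ?_
  obtain ⟨X₀, hX₀⟩ := Pool.Agent.Results.MP_d4938b_nt.NormFormsCoprimeDegrees.result m x.K hc.classNumber hc.norms x.f hc.degree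
    hc.coprime hc.parity x.T x.N U
  refine ⟨X₀, fun X hX => le_trans (le_of_eq ?_) (hX₀ X hX)⟩
  congr!

end Pool.Agent.Results.MP_d4938b_nt.MetricSequences
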