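import Mathlib
import Pool.Agent.N718.GC.All

/-!
# The Hasse principle for 100% of the generalised Châtelet surfaces `y² - a z² = b F_1(x) ⋯ F_m(x)` and of
# their fibre products (helper718)

Let `a_j`, `b_j`, `j < r`, be nonzero integers such that no product of some of the `a_j` is a square, and
let `I_j` be sets of indices `i < m`. Let `F_i`, `i < m`, be binary forms with integral coefficients, of
degrees `e_i + 1`, such that `∑_{i ∈ I_j} (e_i + 1)` is even for all `j`. We consider the variety `X_F`
fibred over `ℙ¹` in products of `r` conics, given by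

  `y_j² - a_j z_j² = b_j ∏_{i ∈ I_j} F_i(x) ≠ 0`, `j < r`.

For `r = 1`, `m = 1` these are the (generalised) Châtelet surfaces `y² - a z² = b F(x)`. If some `I_j` has
more than one element, the quaternion algebras `(a_j, F_i)` (for forms of even degree, or products of two
of odd degree) are unramified on the smooth proper models of `X_F`, and in general not constant: for
random forms, they generate a vertical Brauer group of rank about `∑ (|I_j| - 1)`. The Hasse principle
fails for some of these varieties, for example for the surface `y² + z² = (3 - x²)(x² - 2)` of Iskovskikh.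

We order the families `F` by the maximum `H` of the absolute values of all the coefficients. If at least
one `X_F` has points over the real numbers (over the given open set `U` of the base) and over all
`p`-adic numbers, then a positive proportion of them has, and for 100% of these the Hasse principle
holds: there is no Brauer-Manin obstruction and there is a rational point. Moreover, the base points of
the rational points approximate those of all given local points at a finite set `S` of primes, which
need not be orthogonal to the Brauer group, and can be found in `U`.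

Proof. For almost all families, there are base points in any given suitable residue class at which all
the `F_i` are, up to given divisors composed of small primes, prime numbers `P_i` (a second moment over
all the families, see `Pool/Agent/Results/MP_12adaf_nt/RandomDiagonalConicBundles.lean`). By Hasse's
theorem for conics the fibre has a rational point if the symbols `(a_j / P_i)`, `i ∈ I_j`, are `1`. They
depend only on the residue class, and by the product formula their product over `I_j` is `1`. For
`i, i' ∈ I_j` almost all families have a prime `l` in a large interval with `(a_j / l) = -1`,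
`(a_k / l) = 1` for the other `k`, modulo which `F_i` and `F_i'` have a common zero, such that at an
`l`-adic base point near this zero exactly these two forms are divisible by `l`, and only once: there
are `l`-adic points over it, and passing from an `l`-adic point at which no form is divisible by `l` to
this one changes exactly the symbols `(a_j / P_i)` and `(a_j / P_i')`. As the probability of such a
common zero is about `1 / l`, and the sum of `1 / l` over the primes `l` with given symbols diverges, one
can make all symbols trivial. The local points at the small primes are moved to points at which the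
forms have bounded valuations and the same square classes.
-/

set_option autoImplicit false

namespace Pool.Agent.Results.MP_d4938b_nt.RandomChateletProducts

open Finset Filter Topology

/-- The value at the point `(x, y)` of the binary form `∑ c_j x^(e + 1 - j) y^j` of degree `e + 1`. -/
def value {e : ℕ} (c : Fin (e + 2) → ℤ) {K : Type} [CommRing K] (x y : K) : K :=
  ∑ j : Fin (e + 2), (c j : K) * x ^ (e + 1 - (j : ℕ)) * y ^ (j : ℕ)

/-- The fixed data of the system of equations `y_j² - a_j z_j² = b_j ∏_{i ∈ I_j} F_i(x)`, `j < r`: the
sets `I_j` of indices `i < m` and the integers `a_j` and `b_j`. -/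
structure Data (r m : ℕ) where
  /-- the sets of indices -/
  I : Fin r → Finset (Fin m)
  /-- the coefficients on the left -/
  a : Fin r → ℤ
  /-- the constant factors on the right -/
  b : Fin r → ℤ

variable {r m : ℕ}

/-- No product of some of the `a_j` (of at least one of them) is a square, the `b_j` are not zero, and
the right hand sides have even degree, if the form `F_i` has the degree `e i + 1`. -/
structure Data.Admissible (E : Data r m) (e : Fin m → ℕ) : Prop where
  independent : ∀ T : Finset (Fin r), T.Nonempty → ¬ IsSquare (∏ j ∈ T, E.a j)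
  nonzero : ∀ j, E.b j ≠ 0
  even : ∀ j, Even (∑ i ∈ E.I j, (e i + 1))

/-- There is a point over the field `K` over the base point `(x, y)`, and no form `F_i` vanishes there.
The form `F_i` has the coefficients `c i`. -/
def HasPoint (E : Data r m) {e : Fin m → ℕ} (c : (i : Fin m) → Fin (e i + 2) → ℤ) {K : Type} [Field K]
    (x y : K) : Prop :=
  (∀ i, value (c i) x y ≠ 0) ∧
    ∀ j, ∃ u v : K, u ^ 2 - (E.a j : K) * v ^ 2 = (E.b j : K) * ∏ i ∈ E.I j, value (c i) x y

/-- There are a real point over a base point `(1, z)` with `z` in `U` and a `p`-adic point for every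
prime number `p`. -/
def LocallySoluble (E : Data r m) {e : Fin m → ℕ} (U : Set ℝ)
    (c : (i : Fin m) → Fin (e i + 2) → ℤ) : Prop :=
  (∃ z ∈ U, HasPoint E c (1 : ℝ) z) ∧ ∀ p : Nat.Primes, ∃ x y : ℚ_[(p : ℕ)], HasPoint E c x y

/-- For all `p`-adic points, `p` in `S`, with primitive base points `(X p, Y p)`, there is a rational
point with an integral base point `(x, y)` which satisfies `x > 0`, `y / x ∈ U` and is congruent to the
`(X p, Y p)` modulo `p ^ N`, for all `p` in `S`. For `S = ∅` this says that there is a rational point with
`x > 0` and `y / x ∈ U`. -/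
def Approximation (E : Data r m) {e : Fin m → ℕ} (U : Set ℝ) (S : Finset Nat.Primes) (N : ℕ)
    (c : (i : Fin m) → Fin (e i + 2) → ℤ) : Prop :=
  ∀ X Y : (p : Nat.Primes) → ℚ_[(p : ℕ)], (∀ p ∈ S, max ‖X p‖ ‖Y p‖ = 1 ∧ HasPoint E c (X p) (Y p)) →
    ∃ x y : ℤ, 0 < x ∧ (y : ℝ) / x ∈ U ∧ HasPoint E c (x : ℚ) (y : ℚ) ∧
      ∀ p ∈ S, ‖X p - (x : ℚ_[(p : ℕ)])‖ ≤ (((p : ℕ) : ℝ) ^ N)⁻¹ ∧
        ‖Y p - (y : ℚ_[(p : ℕ)])‖ ≤ (((p : ℕ) : ℝ) ^ N)⁻¹

/-- The families of forms whose coefficients are integers of absolute value at most `H`. -/
noncomputable def families (e : Fin m → ℕ) (H : ℕ) : Finset ((i : Fin m) → Fin (e i + 2) → ℤ) :=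
  Fintype.piFinset fun _ => Fintype.piFinset fun _ => Icc (-(H : ℤ)) H

lemma card_families (e : Fin m → ℕ) (H : ℕ) :
    ((families e H).card : ℝ) = ((2 * H + 1 : ℕ) : ℝ) ^ Pool.Agent.N718.DC.ncI e := by
  have h1 : ((Icc (-(H : ℤ)) H).card) = 2 * H + 1 := by
    rw [Int.card_Icc]
    omega
  unfold families Pool.Agent.N718.DC.ncI
  rw [Fintype.card_piFinset]
  simp only [Fintype.card_piFinset, h1, prod_const, card_univ, Fintype.card_fin]
  rw [← Finset.prod_pow_eq_pow_sum]
  push_cast
  rfl

/-- The same data in the notation of the library. -/
def toDat (E : Data r m) : Pool.Agent.N718.GC.Dat r m := ⟨E.I, E.a, E.b⟩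

lemma toDat_ok {E : Data r m} {e : Fin m → ℕ} (h : E.Admissible e) : (toDat E).Ok e :=
  ⟨h.independent, h.nonzero, h.even⟩

lemma hasPoint_iff (E : Data r m) {e : Fin m → ℕ} (c : (i : Fin m) → Fin (e i + 2) → ℤ) {K : Type}
    [Field K] (x y : K) : HasPoint E c x y ↔ Pool.Agent.N718.GC.PG (toDat E) c x y := Iff.rfl

open Classical in
/-- **The Hasse principle for 100% of the generalised Châtelet surfaces and their fibre products.** -/
theorem result (r m : ℕ) (hm : 1 ≤ m) (e : Fin m → ℕ) (E : Data r m) (hE : E.Admissible e)
    (U : Set ℝ) (hU : IsOpen U) (hne : ∃ c : (i : Fin m) → Fin (e i + 2) → ℤ, LocallySoluble E U c)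
    (S : Finset Nat.Primes) (N : ℕ) :
    (∃ c₀ : ℝ, 0 < c₀ ∧ ∀ᶠ H : ℕ in atTop,
      c₀ * (families e H).card ≤ ({c ∈ families e H | LocallySoluble E U c}.card : ℝ)) ∧
    Tendsto (fun H : ℕ =>
      ({c ∈ families e H | LocallySoluble E U c ∧ Approximation E U S N c}.card : ℝ) /
        ({c ∈ families e H | LocallySoluble E U c}.card : ℝ)) atTop (𝓝 1) := by
  obtain ⟨c₀, hc₀, H₀, hpos⟩ := Pool.Agent.N718.GC.mainbg r m (toDat E) e (toDat_ok hE) U hne
  have hA := Pool.Agent.N718.GC.mainag r m (toDat E) e hm (toDat_ok hE) U hU S N
  have hpos' : ∀ H : ℕ, H₀ ≤ H →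
      c₀ * (families e H).card ≤ ({c ∈ families e H | LocallySoluble E U c}.card : ℝ) := by
    intro H hH
    rw [card_families]
    exact hpos H hH
  refine ⟨⟨c₀, hc₀, eventually_atTop.2 ⟨H₀, hpos'⟩⟩, ?_⟩
  rw [Metric.tendsto_atTop]
  intro ε hε
  obtain ⟨H₁, hH₁⟩ := hA (c₀ * (ε / 2)) (by positivity)
  refine ⟨max H₀ H₁, fun H hH => ?_⟩
  have h1 := hpos' H ((le_max_left _ _).trans hH)
  have h2 : ({c ∈ families e H | LocallySoluble E U c ∧ ¬ Approximation E U S N c}.card : ℝ) ≤
      c₀ * (ε / 2) * (families e H).card := by
    rw [card_families]
    exact hH₁ H ((le_max_right _ _).trans hH)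
  have hF : (0 : ℝ) < (families e H).card := by
    rw [card_families]
    positivity
  have hL : (0 : ℝ) < ({c ∈ families e H | LocallySoluble E U c}.card : ℝ) :=
    lt_of_lt_of_le (by positivity) h1
  have hsplit : ({c ∈ families e H | LocallySoluble E U c}.card : ℝ) =
      ({c ∈ families e H | LocallySoluble E U c ∧ Approximation E U S N c}.card : ℝ) +
        ({c ∈ families e H | LocallySoluble E U c ∧ ¬ Approximation E U S N c}.card : ℝ) := by
    rw [← Nat.cast_add, Nat.cast_inj, ← Finset.filter_filter, ← Finset.filter_filter]
    exact (Finset.card_filter_add_card_filter_not (fun c => Approximation E U S N c)).symm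
  rw [Real.dist_eq, abs_sub_comm, abs_of_nonneg]
  · rw [sub_lt_comm, lt_div_iff₀ hL]
    have h3 : c₀ * (ε / 2) * (families e H).card ≤
        (ε / 2) * ({c ∈ families e H | LocallySoluble E U c}.card : ℝ) := by
      nlinarith
    nlinarith
  · rw [sub_nonneg, div_le_one hL, hsplit]
    have : (0 : ℝ) ≤ ({c ∈ families e H | LocallySoluble E U c ∧ ¬ Approximation E U S N c}.card : ℝ) :=
      Nat.cast_nonneg _
    linarith

end Pool.Agent.Results.MP_d4938b_nt.RandomChateletProducts
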